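import Pool.Agent.Q292.CDepH.Clu
import Pool.Agent.H934R2.Expl.Box

/-!
Connection probabilities of half-boxes at the boundary of the half-plane.
-/

set_option autoImplicit false

namespace Q292.CDepH

open Finset H974 Pool.Agent.H160R2.CV MeasureTheory Q292.CDep
open Pool.Agent.H160R2.CV.Quad H362P H934E

/-- the edges of the half-plane -/
def HH : Set Edg := {e | 0 ≤ e.2.1}

/-- a boundary vertex -/
def bp (a : ℤ) : Vtx := (a, 0)

/-- the half-box around `(a, 0)` is connected to distance `n` in the half-plane -/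
def Q1 (a : ℤ) (r n : ℕ) (F : Set Edg) : Prop :=
  ∃ u v : Vtx, 0 ≤ u.2 ∧ nv (u - bp a) ≤ r ∧ n ≤ nv (v - bp a) ∧ Reach (F ∩ HH) u v

/-- two half-boxes are connected in the half-plane -/
def Q2 (a : ℤ) (r : ℕ) (b : ℤ) (k : ℕ) (F : Set Edg) : Prop :=
  ∃ u v : Vtx, 0 ≤ u.2 ∧ nv (u - bp a) ≤ r ∧ nv (v - bp b) ≤ k ∧ Reach (F ∩ HH) u v

theorem Q1.mono {a : ℤ} {r n : ℕ} {F G : Set Edg} (h : F ⊆ G) (hF : Q1 a r n F) :
    Q1 a r n G := by
  obtain ⟨u, v, h0, h1, h2, h3⟩ := hF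
  exact ⟨u, v, h0, h1, h2, h3.mono (Set.inter_subset_inter_left _ h)⟩

theorem Q2.mono {a : ℤ} {r : ℕ} {b : ℤ} {k : ℕ} {F G : Set Edg} (h : F ⊆ G)
    (hF : Q2 a r b k F) : Q2 a r b k G := by
  obtain ⟨u, v, h0, h1, h2, h3⟩ := hF
  exact ⟨u, v, h0, h1, h2, h3.mono (Set.inter_subset_inter_left _ h)⟩

theorem reach_boxH {F : Set Edg} {u v : Vtx} (h : Reach (F ∩ HH) u v) :
    ∃ m : ℕ, Reach ((F ∩ ↑(boxE m)) ∩ HH) u v := by
  obtain ⟨m, hm⟩ := InfAux.reach_box h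
  refine ⟨m, hm.mono ?_⟩
  rintro e ⟨⟨h1, h2⟩, h3⟩
  exact ⟨⟨h1, h3⟩, h2⟩

theorem Q1_box {a : ℤ} {r n : ℕ} {F : Set Edg} (hF : Q1 a r n F) :
    ∃ m : ℕ, Q1 a r n (F ∩ ↑(boxE m)) := by
  obtain ⟨u, v, h0, h1, h2, h3⟩ := hF
  obtain ⟨m, hm⟩ := reach_boxH h3
  exact ⟨m, u, v, h0, h1, h2, hm⟩

theorem Q2_box {a : ℤ} {r : ℕ} {b : ℤ} {k : ℕ} {F : Set Edg} (hF : Q2 a r b k F) :
    ∃ m : ℕ, Q2 a r b k (F ∩ ↑(boxE m)) := by
  obtain ⟨u, v, h0, h1, h2, h3⟩ := hF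
  obtain ⟨m, hm⟩ := reach_boxH h3
  exact ⟨m, u, v, h0, h1, h2, hm⟩

/-- the edges of the half-box -/
noncomputable def bh (a : ℤ) (n : ℕ) : Finset Edg := RE (a - n) (a + n) 0 n

theorem bh_mono {a : ℤ} {m n : ℕ} (h : m ≤ n) : bh a m ⊆ bh a n := by
  have h' : (m : ℤ) ≤ n := by exact_mod_cast h
  unfold bh
  apply RE_subset <;> omega

theorem bh_box {a : ℤ} {n : ℕ} : bh a n ⊆ boxE (a.natAbs + n) := by
  unfold bh boxE
  apply RE_subset <;> omega

theorem reach_up {F : Set Edg} {u v : Vtx} (hu : 0 ≤ u.2) (h : Reach (F ∩ HH) u v) : 0 ≤ v.2 :=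
  reach_nonneg (fun _ he => he.2) hu h

/-- crossing of the half-annulus -/
def CrH (a : ℤ) (r n : ℕ) (F : Finset Edg) : Prop :=
  ∃ u w : Vtx, inR (a - r) (a + r) 0 r u ∧ (w.1 ≤ a - n ∨ a + n ≤ w.1 ∨ n ≤ w.2) ∧
    inR (a - n) (a + n) 0 n w ∧ Reach (↑F ∩ ↑(bh a n \ bh a r)) u w

theorem CrH_inc (a : ℤ) (r n : ℕ) : IncA (CrH a r n) := by
  rintro F G h ⟨u, w, k0, k1, k2, k3⟩
  exact ⟨u, w, k0, k1, k2, k3.mono (Set.inter_subset_inter_left _ (by exact_mod_cast h))⟩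

theorem CrH_loc {a : ℤ} {r n : ℕ} : LocE (bh a n \ bh a r) (CrH a r n) := by
  intro F
  unfold CrH
  rw [coe_inter_eq (Finset.Subset.refl _)]

theorem inR_nv {a : ℤ} {r : ℕ} {u : Vtx} (h0 : 0 ≤ u.2) (h : nv (u - bp a) ≤ r) :
    inR (a - r) (a + r) 0 r u := by
  unfold nv bp at h
  simp only [Prod.fst_sub, Prod.snd_sub, sub_zero] at h
  unfold inR
  omega

theorem nv_inR {a : ℤ} {r : ℕ} {u : Vtx} (h : inR (a - r) (a + r) 0 r u) :
    0 ≤ u.2 ∧ nv (u - bp a) ≤ r := by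
  unfold inR at h
  unfold nv bp
  simp only [Prod.fst_sub, Prod.snd_sub, sub_zero]
  omega

theorem out_nv {a : ℤ} {n : ℕ} {v : Vtx} (h : n ≤ nv (v - bp a)) :
    v.1 ≤ a - n ∨ a + n ≤ v.1 ∨ v.2 ≤ -n ∨ n ≤ v.2 := by
  unfold nv bp at h
  simp only [Prod.fst_sub, Prod.snd_sub, sub_zero] at h
  omega

theorem nv_out {a : ℤ} {n : ℕ} {v : Vtx} (h : v.1 ≤ a - n ∨ a + n ≤ v.1 ∨ n ≤ v.2) :
    n ≤ nv (v - bp a) := by
  unfold nv bp
  simp only [Prod.fst_sub, Prod.snd_sub, sub_zero]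
  omega

theorem CrH_of_reach {F : Finset Edg} {a : ℤ} {r n : ℕ} (hn : 1 ≤ n) (hrn : r ≤ n) {u v : Vtx}
    (h0 : 0 ≤ u.2) (hu : nv (u - bp a) ≤ r) (hv : n ≤ nv (v - bp a))
    (h : Reach (↑F ∩ HH) u v) : CrH a r n F := by
  have h1 := inR_nv h0 hu
  have h2 := inR_nv (r := n) h0 (hu.trans hrn)
  obtain ⟨w, k1, k2, k3⟩ := exitG (k := a) (R := n) (by exact_mod_cast hn)
    (G := ↑F ∩ HH) (fun e he _ => he.2) h2 h (out_nv hv)
  obtain ⟨u', hu', hr'⟩ := Pool.Agent.H160R2.CV.Quad.last_exit h1 k3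
  refine ⟨u', w, hu', k1, k2, hr'.mono ?_⟩
  rintro e ⟨⟨⟨h3, -⟩, h4⟩, h5⟩
  refine ⟨h3, ?_⟩
  rw [Finset.coe_sdiff]
  exact ⟨h4, h5⟩

theorem CrH_Q1 {F : Finset Edg} {a : ℤ} {r n : ℕ} (h : CrH a r n F) : Q1 a r n (↑F) := by
  obtain ⟨u, w, h1, h2, h3, h4⟩ := h
  obtain ⟨k1, k2⟩ := nv_inR h1
  refine ⟨u, w, k1, k2, nv_out h2, h4.mono ?_⟩
  rintro e ⟨h5, h6⟩
  refine ⟨h5, ?_⟩
  rw [Finset.coe_sdiff] at h6
  exact RE_nonneg (Finset.mem_coe.mp h6.1)

/-- the exponent -/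
noncomputable abbrev be : ℝ := 1 / 3

theorem pr_CrH_BAr (S : Finset Edg) (a : ℤ) (r n : ℕ) :
    Pr P S (CrH a r n) ≤ Pr P (bh a n) (BAr a r n) := by
  refine (pr_le_loc S (bh a n \ bh a r) (CrH_inc a r n) CrH_loc).trans ?_
  refine (Pr_mono_set Quad.okP Finset.sdiff_subset
    (fun F G h _ => CrH_inc a r n F G h)).trans (Pr_mono Quad.okP ?_)
  rintro F _ ⟨u, w, h1, h2, h3, h4⟩
  refine ⟨u, w, h1, h2, h4.mono ?_⟩
  rintro e ⟨h5, h6⟩
  refine ⟨h5, ?_⟩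
  rw [Finset.coe_sdiff] at h6
  exact h6.1

theorem be_ge {t : ℝ} (h0 : 0 < t) (h1 : t ≤ 1) : t ≤ t ^ be := by
  have := Real.rpow_le_rpow_of_exponent_ge (x := t) (y := 1) (z := be) h0 h1 (by norm_num)
  rwa [Real.rpow_one] at this

theorem be_le {t : ℝ} (ht : 1 ≤ t) : t ^ be ≤ t := by
  calc t ^ be ≤ t ^ (1 : ℝ) := Real.rpow_le_rpow_of_exponent_le ht (by norm_num)
    _ = t := Real.rpow_one t

theorem hb_up : ∃ C : ℝ, 1 ≤ C ∧ ∀ (a : ℤ) (r n : ℕ), 1 ≤ n → ∀ S : Finset Edg,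
    Pr P S (CrH a r n) ≤ C * (((r : ℝ) + 1) / n) ^ be := by
  obtain ⟨C1, hC1, hb⟩ := BAr_le
  obtain ⟨c0, C0, hc0, hC0, hpa⟩ := pa_bounds
  refine ⟨C0 + C1 + 1, by linarith, fun a r n hn S => ?_⟩
  have hn0 : (0 : ℝ) < n := by exact_mod_cast hn
  have hn1 : (1 : ℤ) ≤ n := by exact_mod_cast hn
  have hp : 0 < (((r : ℝ) + 1) / n) ^ be := Real.rpow_pos_of_pos (by positivity) _
  have key : ∀ C : ℝ, C ≤ C0 + C1 + 1 → Pr P S (CrH a r n) ≤ C * (((r : ℝ) + 1) / n) ^ be →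
      Pr P S (CrH a r n) ≤ (C0 + C1 + 1) * (((r : ℝ) + 1) / n) ^ be :=
    fun C hC h => h.trans (mul_le_mul_of_nonneg_right hC hp.le)
  rcases Nat.lt_or_ge n r with hnr | hrn
  · refine key 1 (by linarith) ?_
    refine (Pr_le_one Quad.okP _ _).trans ?_
    rw [one_mul]
    apply Real.one_le_rpow _ (by norm_num)
    rw [one_le_div hn0]
    have : (n : ℝ) ≤ r := by exact_mod_cast hnr.le
    linarith
  · have h0 := pr_CrH_BAr S a r n
    rcases Nat.eq_zero_or_pos r with hr0 | hr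
    · subst hr0
      refine key C0 (by linarith) ?_
      have h1 : Pr P (bh a n) (BAr a (0 : ℕ) n) ≤ pa n := by
        have h2 := pr_Ar (k := a) (n := n) hn1 (S := bh a n) (Finset.Subset.refl _)
        rw [← h2]
        refine Pr_mono Quad.okP ?_
        rintro F _ ⟨u, v, hu, hv, hr⟩
        have hu' : u = (a, 0) := by
          unfold inR at hu
          push_cast at hu
          exact Prod.ext (by simp only; omega) (by simp only; omega)
        rw [hu'] at hr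
        exact ⟨v, hv, hr⟩
      have h3 := (hpa n hn1).2
      have e1 : (((0 : ℕ) : ℝ) + 1) / n = (n : ℝ)⁻¹ := by
        rw [Nat.cast_zero, zero_add, one_div]
      rw [e1, Real.inv_rpow hn0.le]
      have h4 : (0 : ℝ) < (n : ℝ) ^ be := Real.rpow_pos_of_pos hn0 _
      refine (h0.trans h1).trans ?_
      rw [← div_eq_mul_inv, le_div_iff₀ h4]
      have h5 : ((n : ℤ) : ℝ) = (n : ℝ) := by push_cast; rfl
      rw [h5] at h3
      linarith
    · refine key C1 (by linarith) ?_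
      have h1 := hb a r n (by exact_mod_cast hr) (by exact_mod_cast hrn) (bh a n)
        (Finset.Subset.refl _)
      refine (h0.trans h1).trans ?_
      apply mul_le_mul_of_nonneg_left _ hC1.le
      have h2 : th r / th n = ((r : ℝ) / n) ^ be := by
        unfold th
        rw [Real.div_rpow (by positivity) (by positivity)]
        push_cast
        rfl
      rw [h2]
      apply Real.rpow_le_rpow (by positivity) _ (by norm_num)
      apply div_le_div_of_nonneg_right _ hn0.le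
      linarith

theorem hb_lo : ∃ c : ℝ, 0 < c ∧ ∀ (a : ℤ) (r n : ℕ), 1 ≤ n → r ≤ n → ∀ S : Finset Edg,
    bh a n ⊆ S → c * (((r : ℝ) + 1) / n) ^ be ≤ Pr P S (fun F => Q1 a r n (↑F)) := by
  obtain ⟨c0, C0, hc0, hC0, hpa⟩ := pa_bounds
  refine ⟨c0 / (2 * C0 + 1), by positivity, fun a r n hn hrn S hS => ?_⟩
  have hn0 : (0 : ℝ) < n := by exact_mod_cast hn
  have hn1 : (1 : ℤ) ≤ n := by exact_mod_cast hn
  have hnn : (0 : ℝ) < (n : ℝ) ^ be := Real.rpow_pos_of_pos hn0 _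
  have h1 := pr_Ar (k := a) (n := n) hn1 hS
  have h2 := (hpa n hn1).1
  have h5 : ((n : ℤ) : ℝ) = (n : ℝ) := by push_cast; rfl
  rw [h5] at h2
  change c0 ≤ (n : ℝ) ^ be * pa n at h2
  rcases Nat.eq_zero_or_pos r with hr0 | hr
  · subst hr0
    have h3 : pa n ≤ Pr P S (fun F => Q1 a 0 n (↑F)) := by
      rw [← h1]
      refine Pr_mono Quad.okP ?_
      rintro F _ ⟨y, hy, hr⟩
      refine ⟨(a, 0), y, le_rfl, ?_, nv_out hy, hr.mono ?_⟩
      · show nv ((a, 0) - bp a) ≤ 0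
        unfold nv bp
        simp
      · rintro e ⟨h6, h7⟩
        exact ⟨h6, RE_nonneg (Finset.mem_coe.mp h7)⟩
    refine le_trans ?_ h3
    have e1 : (((0 : ℕ) : ℝ) + 1) / n = (n : ℝ)⁻¹ := by
      rw [Nat.cast_zero, zero_add, one_div]
    rw [e1, Real.inv_rpow hn0.le, div_mul_eq_mul_div, div_le_iff₀ (by positivity),
      ← div_eq_mul_inv, div_le_iff₀ hnn]
    have hp := pa_nonneg n
    nlinarith
  · have hr1 : (1 : ℤ) ≤ r := by exact_mod_cast hr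
    have hr0 : (0 : ℝ) < r := by exact_mod_cast hr
    have h3 : pa n ≤ pa r * Pr P S (fun F => Q1 a r n (↑F)) := by
      have hd : Disjoint (bh a r) (bh a n \ bh a r) := Finset.disjoint_sdiff
      have i1 := indep2 S (bh a r) (bh a n \ bh a r) hd
        (A := Ar a r) (fun F G h hF => hF.mono h)
        (CrH_inc a r n) (fun F => Ar_local (Finset.Subset.refl _)) CrH_loc
      have i2 : Pr P (bh a r) (Ar a r) = pa r := pr_Ar (k := a) (n := r) hr1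
        (S := bh a r) (Finset.Subset.refl _)
      rw [i2] at i1
      have i3 : Pr P (bh a n \ bh a r) (CrH a r n) ≤ Pr P S (fun F => Q1 a r n (↑F)) := by
        refine (Pr_mono_set Quad.okP (Finset.sdiff_subset.trans hS)
          (fun F G h _ => CrH_inc a r n F G h)).trans (Pr_mono Quad.okP ?_)
        exact fun F _ h => CrH_Q1 h
      have i4 : pa n ≤ Pr P S (fun F => Ar a r F ∧ CrH a r n F) := by
        rw [← h1]
        refine Pr_mono Quad.okP ?_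
        intro F _ hF
        refine ⟨Ar.anti hr1 (by exact_mod_cast hrn) hF, ?_⟩
        obtain ⟨y, hy, hrr⟩ := hF
        refine CrH_of_reach hn hrn (u := (a, 0)) (v := y) le_rfl ?_ (nv_out hy)
          (hrr.mono ?_)
        · show nv ((a, 0) - bp a) ≤ r
          unfold nv bp
          simp
        · rintro e ⟨h6, h7⟩
          exact ⟨h6, RE_nonneg (Finset.mem_coe.mp h7)⟩
      exact i4.trans (i1.trans (mul_le_mul_of_nonneg_left i3 (pa_nonneg _)))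
    have h4 := (hpa r hr1).2
    have h6 : ((r : ℤ) : ℝ) = (r : ℝ) := by push_cast; rfl
    rw [h6] at h4
    change (r : ℝ) ^ be * pa r ≤ C0 at h4
    set X := Pr P S (fun F => Q1 a r n (↑F)) with hX
    have hX0 : 0 ≤ X := Pr_nonneg Quad.okP _ _
    have hrr : (0 : ℝ) < (r : ℝ) ^ be := Real.rpow_pos_of_pos hr0 _
    have h7 : (((r : ℝ) + 1) / n) ^ be ≤ 2 * ((r : ℝ) ^ be / (n : ℝ) ^ be) := by
      have h8 : (((r : ℝ) + 1) / n) ^ be ≤ (2 * ((r : ℝ) / n)) ^ be := by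
        apply Real.rpow_le_rpow (by positivity) _ (by norm_num)
        rw [← mul_div_assoc]
        apply div_le_div_of_nonneg_right _ hn0.le
        have : (1 : ℝ) ≤ r := by exact_mod_cast hr
        linarith
      refine h8.trans ?_
      rw [Real.mul_rpow (by norm_num) (by positivity), Real.div_rpow hr0.le hn0.le]
      exact mul_le_mul_of_nonneg_right (be_le (by norm_num)) (by positivity)
    -- c0 * r^be / n^be ≤ C0 * X
    have h9 : c0 * ((r : ℝ) ^ be / (n : ℝ) ^ be) ≤ C0 * X := by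
      have e1 : c0 * ((r : ℝ) ^ be / (n : ℝ) ^ be) = (c0 * (r : ℝ) ^ be) / (n : ℝ) ^ be := by
        ring
      rw [e1, div_le_iff₀ hnn]
      calc c0 * (r : ℝ) ^ be ≤ ((n : ℝ) ^ be * pa n) * (r : ℝ) ^ be :=
            mul_le_mul_of_nonneg_right h2 hrr.le
        _ ≤ ((n : ℝ) ^ be * (pa r * X)) * (r : ℝ) ^ be := by
            apply mul_le_mul_of_nonneg_right _ hrr.le
            exact mul_le_mul_of_nonneg_left h3 hnn.le
        _ = ((r : ℝ) ^ be * pa r) * (X * (n : ℝ) ^ be) := by ring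
        _ ≤ C0 * (X * (n : ℝ) ^ be) := mul_le_mul_of_nonneg_right h4 (by positivity)
        _ = C0 * X * (n : ℝ) ^ be := by ring
    rw [div_mul_eq_mul_div, div_le_iff₀ (by positivity)]
    calc c0 * (((r : ℝ) + 1) / n) ^ be ≤ c0 * (2 * ((r : ℝ) ^ be / (n : ℝ) ^ be)) :=
          mul_le_mul_of_nonneg_left h7 hc0.le
      _ = 2 * (c0 * ((r : ℝ) ^ be / (n : ℝ) ^ be)) := by ring
      _ ≤ 2 * (C0 * X) := mul_le_mul_of_nonneg_left h9 (by norm_num)
      _ ≤ X * (2 * C0 + 1) := by nlinarith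

end Q292.CDepH
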