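import Pool.Agent.Q292.CDep.Low

/-!
Clusters in a part `H` of the square lattice, and the comparison of the joint law of two clusters
with the product law.
-/

set_option autoImplicit false

namespace Q292.CDepH

open MeasureTheory Set H974 ProbabilityTheory Q292.CDep
open scoped ENNReal

/-- the half-plane -/
def UH : Set (ℤ × ℤ) := {v | 0 ≤ v.2}

/-- the open edges in the half-plane -/
def hgraph (ω : Cfg) : SimpleGraph (ℤ × ℤ) where
  Adj u v := (openGraph ω).Adj u v ∧ u ∈ UH ∧ v ∈ UH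
  symm := ⟨fun _ _ h => ⟨h.1.symm, h.2.2, h.2.1⟩⟩
  loopless := ⟨fun _ h => (openGraph ω).loopless.irrefl _ h.1⟩

/-- the union of the open clusters of the half-plane which meet `A` -/
def clu (A : Set (ℤ × ℤ)) (ω : Cfg) : Set (ℤ × ℤ) := {v | ∃ u ∈ A, (hgraph ω).Reachable u v}

/-- the edges of the half-plane with an end in `K` -/
def inc (K : Set (ℤ × ℤ)) : Set sqLattice.edgeSet :=
  {e | (∀ v ∈ (e : Sym2 (ℤ × ℤ)), v ∈ UH) ∧ ∃ v ∈ K, v ∈ (e : Sym2 (ℤ × ℤ))}

/-- the clusters which meet `A`, with their open edges -/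
def cgr (A : Set (ℤ × ℤ)) (ω : Cfg) : Set (ℤ × ℤ) × Set sqLattice.edgeSet :=
  (clu A ω, {e | ω e = true ∧ e ∈ inc (clu A ω)})

theorem hg_adj (ω : Cfg) (u v : ℤ × ℤ) :
    (hgraph ω).Adj u v ↔ (∃ h : s(u, v) ∈ sqLattice.edgeSet, ω ⟨s(u, v), h⟩ = true) ∧
      u ∈ UH ∧ v ∈ UH := by
  show ((openGraph ω).Adj u v ∧ u ∈ UH ∧ v ∈ UH) ↔ _
  rw [og_adj]

theorem sub_clu (A : Set (ℤ × ℤ)) (ω : Cfg) : A ⊆ clu A ω :=
  fun u hu => ⟨u, hu, SimpleGraph.Reachable.refl _⟩

theorem clu_step {A : Set (ℤ × ℤ)} {ω : Cfg} {u v : ℤ × ℤ} (hu : u ∈ clu A ω)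
    (h : (hgraph ω).Adj u v) : v ∈ clu A ω := by
  obtain ⟨w, hw, hr⟩ := hu
  exact ⟨w, hw, hr.trans h.reachable⟩

theorem clu_reach {A : Set (ℤ × ℤ)} {ω : Cfg} {u v : ℤ × ℤ} (hu : u ∈ clu A ω)
    (h : (hgraph ω).Reachable u v) : v ∈ clu A ω := by
  obtain ⟨w, hw, hr⟩ := hu
  exact ⟨w, hw, hr.trans h⟩

/-- a set which contains `A` and is closed under the steps contains the clusters -/
theorem clu_sub_of {A K : Set (ℤ × ℤ)} {ω : Cfg} (hA : A ⊆ K)
    (h : ∀ u v, u ∈ K → (hgraph ω).Adj u v → v ∈ K) : clu A ω ⊆ K := by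
  rintro v ⟨u, hu, p⟩
  have key : ∀ u v : ℤ × ℤ, (hgraph ω).Walk u v → u ∈ K → v ∈ K := by
    intro u v p
    induction p with
    | nil => exact id
    | cons hadj p ih => exact fun hu => ih (h _ _ hu hadj)
  obtain ⟨p⟩ := p
  exact key _ _ p (hA hu)

theorem mem_UH {u v : ℤ × ℤ} (hu : u ∈ UH) (hv : v ∈ UH) : ∀ w ∈ s(u, v), w ∈ UH := by
  intro w hw
  rcases Sym2.mem_iff.mp hw with rfl | rfl
  · exact hu
  · exact hv

theorem clu_le {A : Set (ℤ × ℤ)} {ω ω' : Cfg} (h : ∀ e ∈ inc (clu A ω), ω' e = ω e) :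
    clu A ω' ⊆ clu A ω := by
  refine clu_sub_of (sub_clu A ω) ?_
  intro u v hu hadj
  obtain ⟨⟨he, ho⟩, h1, h2⟩ := (hg_adj ω' u v).mp hadj
  refine clu_step hu ((hg_adj ω u v).mpr ⟨⟨he, ?_⟩, h1, h2⟩)
  rw [← h _ ⟨mem_UH h1 h2, u, hu, Sym2.mem_mk_left u v⟩]
  exact ho

theorem clu_ge {A : Set (ℤ × ℤ)} {ω ω' : Cfg} (h : ∀ e ∈ inc (clu A ω), ω' e = ω e) :
    clu A ω ⊆ clu A ω' := by
  have h1 : clu A ω ⊆ clu A ω ∩ clu A ω' := by
    refine clu_sub_of (fun u hu => ⟨sub_clu A ω hu, sub_clu A ω' hu⟩) ?_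
    rintro u v ⟨hu, hu'⟩ hadj
    obtain ⟨⟨he, ho⟩, h1, h2⟩ := (hg_adj ω u v).mp hadj
    refine ⟨clu_step hu hadj, clu_step hu' ((hg_adj ω' u v).mpr ⟨⟨he, ?_⟩, h1, h2⟩)⟩
    rw [h _ ⟨mem_UH h1 h2, u, hu, Sym2.mem_mk_left u v⟩]
    exact ho
  exact fun v hv => (h1 hv).2

theorem clu_congr {A : Set (ℤ × ℤ)} {ω ω' : Cfg} (h : ∀ e ∈ inc (clu A ω), ω' e = ω e) :
    clu A ω' = clu A ω := Subset.antisymm (clu_le h) (clu_ge h)

theorem cgr_iff {A : Set (ℤ × ℤ)} {ω ω' : Cfg} :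
    cgr A ω' = cgr A ω ↔ ∀ e ∈ inc (clu A ω), ω' e = ω e := by
  constructor
  · intro h e he
    have h1 : clu A ω' = clu A ω := congrArg Prod.fst h
    have h2 : e ∈ (cgr A ω').2 ↔ e ∈ (cgr A ω).2 := by rw [h]
    have h3 : (ω' e = true ∧ e ∈ inc (clu A ω')) ↔ (ω e = true ∧ e ∈ inc (clu A ω)) := h2
    rw [h1] at h3
    simp only [he, and_true] at h3
    exact Bool.eq_iff_iff.mpr h3
  · intro h
    have h1 := clu_congr h
    unfold cgr
    rw [h1]
    refine Prod.ext rfl ?_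
    ext e
    constructor
    · rintro ⟨h3, h4⟩
      exact ⟨by rw [← h e h4]; exact h3, h4⟩
    · rintro ⟨h3, h4⟩
      exact ⟨by rw [h e h4]; exact h3, h4⟩

theorem inc_finite {K : Set (ℤ × ℤ)} (h : K.Finite) : (inc K).Finite :=
  (Q292.CDep.inc_finite h).subset (fun _ he => he.2)

theorem fibre {A : Set (ℤ × ℤ)} {η : Cfg} (T : Finset sqLattice.edgeSet)
    (hT : ∀ e, e ∈ T ↔ e ∈ inc (clu A η)) : {ω | cgr A ω = cgr A η} = cyl T η := by
  ext ω
  show cgr A ω = cgr A η ↔ ∀ e ∈ T, ω e = η e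
  rw [cgr_iff]
  exact forall_congr' fun e => by rw [hT]

theorem cgr_fin {A : Set (ℤ × ℤ)} {ω : Cfg} (h : (clu A ω).Finite) : cgr A ω ∈ fin :=
  ⟨h, (inc_finite h).subset (fun _ he => he.2)⟩

theorem cgr_disc {A : Set (ℤ × ℤ)} (h : ∀ᵐ ω ∂(bondLaw hlf), (clu A ω).Finite) :
    Disc (bondLaw hlf) (cgr A) fin := by
  refine ⟨fin_countable, ?_, ?_⟩
  · filter_upwards [h] with ω hω
    exact cgr_fin hω
  · intro a ha
    by_cases hne : ∃ η, cgr A η = a
    · obtain ⟨η, rfl⟩ := hne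
      have hf : (inc (clu A η)).Finite := inc_finite ha.1
      rw [fibre hf.toFinset (fun e => hf.mem_toFinset)]
      exact cyl_meas _ _
    · have : {ω | cgr A ω = a} = ∅ := by
        ext ω
        simp only [mem_empty_iff_false, iff_false]
        exact fun h => hne ⟨ω, h⟩
      rw [this]
      exact MeasurableSet.empty

/-- **The basic comparison.** For values with disjoint sets of vertices the joint law is at least
the product law. -/
theorem joint_ge {A B : Set (ℤ × ℤ)} {a b : Set (ℤ × ℤ) × Set sqLattice.edgeSet}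
    (ha : a ∈ fin) (hb : b ∈ fin) (hab : Disjoint a.1 b.1) :
    bondLaw hlf {ω | cgr A ω = a} * bondLaw hlf {ω | cgr B ω = b} ≤
      bondLaw hlf {ω | cgr A ω = a ∧ cgr B ω = b} := by
  classical
  by_cases hA : ∃ η, cgr A η = a
  swap
  · have : {ω | cgr A ω = a} = ∅ := by
      ext ω
      simp only [mem_empty_iff_false, iff_false]
      exact fun h => hA ⟨ω, h⟩
    rw [this, measure_empty, zero_mul]
    exact zero_le
  by_cases hB : ∃ η, cgr B η = b
  swap
  · have : {ω | cgr B ω = b} = ∅ := by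
      ext ω
      simp only [mem_empty_iff_false, iff_false]
      exact fun h => hB ⟨ω, h⟩
    rw [this, measure_empty, mul_zero]
    exact zero_le
  obtain ⟨η, rfl⟩ := hA
  obtain ⟨ζ, rfl⟩ := hB
  have hab' : Disjoint (clu A η) (clu B ζ) := hab
  have hf : (inc (clu A η)).Finite := inc_finite ha.1
  have hg : (inc (clu B ζ)).Finite := inc_finite hb.1
  set T := hf.toFinset with hT
  set U := hg.toFinset with hU
  have hTm : ∀ e, e ∈ T ↔ e ∈ inc (clu A η) := fun e => hf.mem_toFinset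
  have hUm : ∀ e, e ∈ U ↔ e ∈ inc (clu B ζ) := fun e => hg.mem_toFinset
  -- the common edges are closed in both configurations
  have hcl : ∀ e, e ∈ T → e ∈ U → η e = false ∧ ζ e = false := by
    intro e h1 h2
    obtain ⟨hUH, u, hu, hue⟩ := (hTm e).mp h1
    obtain ⟨-, v, hv, hve⟩ := (hUm e).mp h2
    have huv : u ≠ v := by
      rintro rfl
      exact Set.disjoint_left.mp hab' hu hv
    have he : (e : Sym2 (ℤ × ℤ)) = s(u, v) := (Sym2.mem_and_mem_iff huv).mp ⟨hue, hve⟩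
    have hE : s(u, v) ∈ sqLattice.edgeSet := he ▸ e.2
    have he' : e = ⟨s(u, v), hE⟩ := Subtype.ext he
    constructor
    · by_contra hcon
      rw [Bool.not_eq_false] at hcon
      rw [he'] at hcon
      exact Set.disjoint_left.mp hab' (clu_step hu ((hg_adj η u v).mpr ⟨⟨hE, hcon⟩, hUH u hue, hUH v hve⟩)) hv
    · by_contra hcon
      rw [Bool.not_eq_false] at hcon
      rw [he'] at hcon
      exact Set.disjoint_left.mp hab' hu
        (clu_step hv (((hg_adj ζ u v).mpr ⟨⟨hE, hcon⟩, hUH u hue, hUH v hve⟩).symm))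
  set θ : Cfg := fun e => if e ∈ T then η e else ζ e with hθ
  have hset : {ω | cgr A ω = cgr A η ∧ cgr B ω = cgr B ζ} = cyl (T ∪ U) θ := by
    have e1 : {ω | cgr A ω = cgr A η ∧ cgr B ω = cgr B ζ} = cyl T η ∩ cyl U ζ := by
      rw [← fibre T hTm, ← fibre U hUm]
      rfl
    rw [e1]
    ext ω
    constructor
    · rintro ⟨h1, h2⟩ e he
      rw [hθ]
      simp only
      split_ifs with hm
      · exact h1 e hm
      · rcases Finset.mem_union.mp he with h3 | h3
        · exact absurd h3 hm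
        · exact h2 e h3
    · intro h
      refine ⟨fun e he => ?_, fun e he => ?_⟩
      · have := h e (Finset.mem_union_left _ he)
        rw [hθ] at this
        simp only [he, if_true] at this
        exact this
      · have := h e (Finset.mem_union_right _ he)
        rw [hθ] at this
        simp only at this
        split_ifs at this with hm
        · rw [this, (hcl e hm he).1, (hcl e hm he).2]
        · exact this
  rw [hset, fibre T hTm, fibre U hUm, cyl_law, cyl_law, cyl_law, ← pow_add]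
  apply pow_le_pow_right_of_le_one' (by
    rw [ENNReal.inv_le_one]
    norm_num)
  exact Finset.card_union_le _ _

/-- **Upper bound by the intersection of two independent clusters.** -/
theorem tv_upper {A B : Set (ℤ × ℤ)} (hA : ∀ᵐ ω ∂(bondLaw hlf), (clu A ω).Finite)
    (hB : ∀ᵐ ω ∂(bondLaw hlf), (clu B ω).Finite)
    (S : Set ((Set (ℤ × ℤ) × Set sqLattice.edgeSet) × (Set (ℤ × ℤ) × Set sqLattice.edgeSet))) :
    |(bondLaw hlf).real {ω | (cgr A ω, cgr B ω) ∈ S} -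
      ((bondLaw hlf).prod (bondLaw hlf)).real {p | (cgr A p.1, cgr B p.2) ∈ S}| ≤
      ((bondLaw hlf).prod (bondLaw hlf)).real {p | ¬ Disjoint (clu A p.1) (clu B p.2)} :=
  tv_le (cgr_disc hA) (cgr_disc hB) {q | ¬ Disjoint q.1.1 q.2.1}
    (fun _ ha _ hb hab => joint_ge ha hb (not_not.mp hab)) S

end Q292.CDepH
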