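import Pool.Agent.Q292.CDepH.Upper
import Pool.Agent.Q292.CDep.Low2

/-!
The half-plane: the events of the lower bound.
-/

set_option autoImplicit false

namespace Q292.CDepH

open Finset H974 Pool.Agent.H160R2.CV MeasureTheory Q292.CDep
open Pool.Agent.H160R2.CV.Quad H362P H934E

theorem hc_meet2 {F : Finset Edg} {k R1 R2 : ℤ} (h1 : 0 ≤ R1) (h2 : R1 < R2)
    (h : HC k R1 R2 F) : ∃ z : Vtx, ∀ (G : Set Edg) (u v : Vtx),
      inR (k - R1) (k + R1) 0 R1 u → (v.1 ≤ k - R2 ∨ k + R2 ≤ v.1 ∨ R2 ≤ v.2) →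
      Reach (G ∩ ↑(RE (k - R2) (k + R2) 0 R2)) u v →
      ∃ w, Reach (G ∩ HH) u w ∧ Reach (↑F ∩ HH) z w := by
  obtain ⟨⟨t, t', ht, ht', hT⟩, ⟨r, r', hr, hr', hR⟩, ⟨l, l', hl, hl', hL⟩⟩ := h
  have hsubH : ∀ X : Set Edg, X ∩ ↑(RE (k - R2) (k + R2) 0 R2) ⊆ X ∩ HH := by
    rintro X e ⟨he1, he2⟩
    exact ⟨he1, RE_nonneg (Finset.mem_coe.mp he2)⟩
  have hT' := hT.mono (Set.inter_subset_inter_right (↑F)
    (by exact_mod_cast LRE_subset_RE : (↑(LRE (k - R2) (k + R2) R1 R2) : Set Edg) ⊆ _))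
  have hR' := hR.mono (Set.inter_subset_inter_right (↑F)
    (by exact_mod_cast TBE_subset_RE : (↑(TBE (k + R1) (k + R2) 0 R2) : Set Edg) ⊆ _))
  have hL' := hL.mono (Set.inter_subset_inter_right (↑F)
    (by exact_mod_cast TBE_subset_RE : (↑(TBE (k - R2) (k - R1) 0 R2) : Set Edg) ⊆ _))
  have mTR : Reach (↑F ∩ ↑(RE (k - R2) (k + R2) 0 R2)) (k - R2, t) (r, 0) :=
    cross_meet (by omega) (by omega) le_rfl (by omega) h2 le_rfl hT' (by simp only; omega) le_rfl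
      hR' (by simp only; omega) le_rfl
  have mTL : Reach (↑F ∩ ↑(RE (k - R2) (k + R2) 0 R2)) (k - R2, t) (l, 0) :=
    cross_meet le_rfl (by omega) (by omega) (by omega) h2 le_rfl hT' le_rfl (by simp only; omega)
      hL' (by simp only; omega) le_rfl
  have nTR := mTR.mono (hsubH _)
  have nTL := mTL.mono (hsubH _)
  -- the paths lie in the half-plane part of the configurations
  have hT2 : Reach ((↑F ∩ HH) ∩ ↑(RE (k - R2) (k + R2) R1 R2)) (k - R2, t) (k + R2, t') := by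
    refine hT'.mono ?_
    rintro e ⟨he1, he2⟩
    refine ⟨⟨he1, ?_⟩, he2⟩
    obtain ⟨x, y, _ | _⟩ := e
    · rw [Finset.mem_coe, mem_RE_false] at he2
      show 0 ≤ y
      omega
    · rw [Finset.mem_coe, mem_RE_true] at he2
      show 0 ≤ y
      omega
  have hR2 : Reach ((↑F ∩ HH) ∩ ↑(RE (k + R1) (k + R2) 0 R2)) (r, 0) (r', R2) := by
    refine hR'.mono ?_
    rintro e ⟨he1, he2⟩
    exact ⟨⟨he1, RE_nonneg (Finset.mem_coe.mp he2)⟩, he2⟩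
  have hL2 : Reach ((↑F ∩ HH) ∩ ↑(RE (k - R2) (k - R1) 0 R2)) (l, 0) (l', R2) := by
    refine hL'.mono ?_
    rintro e ⟨he1, he2⟩
    exact ⟨⟨he1, RE_nonneg (Finset.mem_coe.mp he2)⟩, he2⟩
  refine ⟨(l, 0), ?_⟩
  intro G u v hu hv hP
  have hPG := hP.mono (hsubH G)
  have hP2 : Reach ((G ∩ HH) ∩ ↑(RE (k - R2) (k + R2) 0 R2)) u v := by
    refine hP.mono ?_
    rintro e ⟨he1, he2⟩
    exact ⟨⟨he1, RE_nonneg (Finset.mem_coe.mp he2)⟩, he2⟩
  unfold inR at hu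
  rcases hv with hv | hv | hv
  · obtain ⟨w, w1, w2⟩ := cross_meet2 (F := G ∩ HH) (G := ↑F ∩ HH) (A := k - R2) (B := k + R2)
      (C := 0) (D := R2) le_rfl (by omega) (by omega) le_rfl (by omega) le_rfl hP2.symm hv
        (show k - R1 ≤ u.1 by omega) hL2 le_rfl le_rfl
    exact ⟨w, hPG.trans w1, w2⟩
  · obtain ⟨w, w1, w2⟩ := cross_meet2 (F := G ∩ HH) (G := ↑F ∩ HH) (A := k - R2) (B := k + R2)
      (C := 0) (D := R2) (by omega) (by omega) le_rfl le_rfl (by omega) le_rfl hP2 (by omega) hv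
        hR2 le_rfl le_rfl
    exact ⟨w, w1, (nTL.symm.trans nTR).trans w2⟩
  · obtain ⟨w, w1, w2⟩ := cross_meet2 (F := ↑F ∩ HH) (G := G ∩ HH) (A := k - R2) (B := k + R2)
      (C := 0) (D := R2) le_rfl (by omega) le_rfl (by omega) h2 le_rfl hT2 le_rfl le_rfl hP2
        (by omega) hv
    exact ⟨w, w2, nTL.symm.trans w1⟩

/-- the half-box around `a` is connected to a point `z` whose cluster meets all the paths (of any
configuration of the half-plane) which cross the half-annulus of radii `n`, `3n` around `b` -/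
def Good (a : ℤ) (r : ℕ) (b : ℤ) (n : ℕ) (F : Set Edg) : Prop :=
  ∃ z u : Vtx, 0 ≤ u.2 ∧ nv (u - bp a) ≤ r ∧ Reach (F ∩ HH) u z ∧
    ∀ (G : Set Edg) (u' v' : Vtx), 0 ≤ u'.2 → nv (u' - bp b) ≤ n →
    3 * n ≤ nv (v' - bp b) → Reach (G ∩ HH) u' v' →
    ∃ w, Reach (G ∩ HH) u' w ∧ Reach (F ∩ HH) z w

theorem Good.mono {a : ℤ} {r : ℕ} {b : ℤ} {n : ℕ} {F G : Set Edg} (h : F ⊆ G)
    (hF : Good a r b n F) : Good a r b n G := by
  obtain ⟨z, u, h0, h1, h2, h3⟩ := hF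
  have hs := Set.inter_subset_inter_left HH h
  refine ⟨z, u, h0, h1, h2.mono hs, fun H u' v' k0 k1 k2 k3 => ?_⟩
  obtain ⟨w, w1, w2⟩ := h3 H u' v' k0 k1 k2 k3
  exact ⟨w, w1, w2.mono hs⟩

theorem Q1_incr (S : Finset Edg) (a : ℤ) (r n : ℕ) : IncrE S (fun F => Q1 a r n (↑F)) :=
  fun _ _ h _ hF => Q1.mono (by exact_mod_cast h) hF

theorem pr_HC' {b : ℤ} {n : ℕ} (hn : 1 ≤ n) {S : Finset Edg} (hS : bh b (3 * n) ⊆ S) :
    kp ≤ Pr P S (HC b n (3 * n)) := by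
  refine pr_HC (k := b) (r := n) (by exact_mod_cast hn) ?_
  refine Finset.Subset.trans ?_ hS
  unfold bh
  apply RE_subset <;> push_cast <;> omega

/-- a half-circuit separates: crossings of one configuration -/
theorem HC_cross {b : ℤ} {n : ℕ} (hn : 1 ≤ n) {F : Finset Edg} (h : HC b n (3 * n) F) :
    ∃ z : Vtx, ∀ (G : Set Edg) (u v : Vtx), 0 ≤ u.2 → nv (u - bp b) ≤ n →
      3 * n ≤ nv (v - bp b) → Reach (G ∩ HH) u v →
      ∃ w, Reach (G ∩ HH) u w ∧ Reach (↑F ∩ HH) z w := by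
  have hn' : (1 : ℤ) ≤ n := by exact_mod_cast hn
  obtain ⟨z, hz⟩ := hc_meet2 (by omega) (by omega) h
  refine ⟨z, fun G u v h0 hu hv hr => ?_⟩
  have h1 := inR_nv h0 hu
  have h2 := inR_nv (a := b) (r := 3 * n) h0 (by omega)
  push_cast at h2
  have h3 := out_nv hv
  push_cast at h3
  obtain ⟨w, k1, k2, k3⟩ := exitG (k := b) (R := 3 * (n : ℤ)) (by omega)
    (G := G ∩ HH) (fun e he _ => he.2) h2 hr h3
  obtain ⟨q, q1, q2⟩ := hz (G ∩ HH) u w h1 k1 k3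
  exact ⟨q, q1.mono Set.inter_subset_left, q2⟩

theorem pr_Good {c : ℝ} (hc : 0 < c) (hlo : ∀ (a : ℤ) (r n : ℕ), 1 ≤ n → r ≤ n →
    ∀ S : Finset Edg, bh a n ⊆ S → c * (((r : ℝ) + 1) / n) ^ be ≤
      Pr P S (fun F => Q1 a r n (↑F)))
    {x y : ℤ} {r n R : ℕ} (hR : nv (bp x - bp y) = R) (hn : 1 ≤ n) (hnR : n ≤ R)
    (hrR : r ≤ R) {S : Finset Edg} (hS : boxE (x.natAbs + y.natAbs + 8 * R) ⊆ S) :
    kp * kp * ((c * (((r : ℝ) + 1) / ((8 * R : ℕ) : ℝ)) ^ be) *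
      (c * (((n : ℝ) + 1) / ((8 * R : ℕ) : ℝ)) ^ be)) ≤
      Pr P S (fun F => Good x r y n (↑F)) := by
  have hR1 : 1 ≤ R := by omega
  have h1 : kp ≤ Pr P S (HC x ((2 * R : ℕ) : ℤ) (3 * ((2 * R : ℕ) : ℤ))) :=
    pr_HC' (by omega) (bh_box.trans ((boxE_mono (by omega)).trans hS))
  have h2 := hlo x r (8 * R) (by omega) (by omega) S
    (bh_box.trans ((boxE_mono (by omega)).trans hS))
  have h3 : kp ≤ Pr P S (HC y n (3 * n)) :=
    pr_HC' (by omega) (bh_box.trans ((boxE_mono (by omega)).trans hS))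
  have h4 := hlo y n (8 * R) (by omega) (by omega) S
    (bh_box.trans ((boxE_mono (by omega)).trans hS))
  have hkp := kp_pos
  obtain ⟨i1, j1⟩ := harris2 (HC_incr S x ((2 * R : ℕ) : ℤ) (3 * ((2 * R : ℕ) : ℤ)))
    (Q1_incr S x r (8 * R)) hkp.le (by positivity) h1 h2
  obtain ⟨i2, j2⟩ := harris2 j1 (HC_incr S y n (3 * n)) (by positivity) hkp.le i1 h3
  obtain ⟨i3, -⟩ := harris2 j2 (Q1_incr S y n (8 * R)) (by positivity) (by positivity) i2 h4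
  refine le_trans (le_of_eq (by ring)) (i3.trans (Pr_mono Quad.okP ?_))
  rintro F _ ⟨⟨⟨k1, u, v, hu0, hu, hv, huv⟩, k3⟩, u', v', hu0', hu', hv', huv'⟩
  obtain ⟨z, hz⟩ := HC_cross (n := 2 * R) (by omega) k1
  obtain ⟨z', hz'⟩ := HC_cross hn k3
  have t1 := nv_tri u' (bp y) (bp x)
  have t2 := nv_tri v' (bp x) (bp y)
  have t3 := w_nv_comm (bp x) (bp y)
  obtain ⟨w1, a1, b1⟩ := hz (↑F) u v hu0 (by omega) (by omega) huv
  obtain ⟨w2, a2, b2⟩ := hz (↑F) u' v' hu0' (by omega) (by omega) huv'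
  obtain ⟨w, c1, c2⟩ := hz' (↑F) u' v' hu0' hu' (by omega) huv'
  refine ⟨z', u, hu0, hu, ?_, hz'⟩
  exact (a1.trans (b1.symm.trans (b2.trans (a2.symm.trans (c1.trans c2.symm)))))

theorem pr_Q2_ge {c : ℝ} (hc : 0 < c) (hlo : ∀ (a : ℤ) (r n : ℕ), 1 ≤ n → r ≤ n →
    ∀ S : Finset Edg, bh a n ⊆ S → c * (((r : ℝ) + 1) / n) ^ be ≤
      Pr P S (fun F => Q1 a r n (↑F)))
    {x y : ℤ} {r n R : ℕ} (hR : nv (bp x - bp y) = R) (hR1 : 1 ≤ R) (hnR : n ≤ R)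
    (hrR : r ≤ R) {S : Finset Edg} (hS : boxE (x.natAbs + y.natAbs + 8 * R) ⊆ S) :
    kp * ((c * (((r : ℝ) + 1) / ((8 * R : ℕ) : ℝ)) ^ be) *
      (c * (((n : ℝ) + 1) / ((8 * R : ℕ) : ℝ)) ^ be)) ≤
      Pr P S (fun F => Q2 x r y n (↑F)) := by
  have h1 : kp ≤ Pr P S (HC x ((2 * R : ℕ) : ℤ) (3 * ((2 * R : ℕ) : ℤ))) :=
    pr_HC' (by omega) (bh_box.trans ((boxE_mono (by omega)).trans hS))
  have h2 := hlo x r (8 * R) (by omega) (by omega) S
    (bh_box.trans ((boxE_mono (by omega)).trans hS))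
  have h4 := hlo y n (8 * R) (by omega) (by omega) S
    (bh_box.trans ((boxE_mono (by omega)).trans hS))
  have hkp := kp_pos
  obtain ⟨i1, j1⟩ := harris2 (HC_incr S x ((2 * R : ℕ) : ℤ) (3 * ((2 * R : ℕ) : ℤ)))
    (Q1_incr S x r (8 * R)) hkp.le (by positivity) h1 h2
  obtain ⟨i3, -⟩ := harris2 j1 (Q1_incr S y n (8 * R)) (by positivity) (by positivity) i1 h4
  refine le_trans (le_of_eq (by ring)) (i3.trans (Pr_mono Quad.okP ?_))
  rintro F _ ⟨⟨k1, u, v, hu0, hu, hv, huv⟩, u', v', hu0', hu', hv', huv'⟩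
  obtain ⟨z, hz⟩ := HC_cross (n := 2 * R) (by omega) k1
  have t1 := nv_tri u' (bp y) (bp x)
  have t2 := nv_tri v' (bp x) (bp y)
  have t3 := w_nv_comm (bp x) (bp y)
  obtain ⟨w1, a1, b1⟩ := hz (↑F) u v hu0 (by omega) (by omega) huv
  obtain ⟨w2, a2, b2⟩ := hz (↑F) u' v' hu0' (by omega) (by omega) huv'
  exact ⟨u, u', hu0, hu, hu', a1.trans (b1.symm.trans (b2.trans a2.symm))⟩

/-! ### measurability -/

theorem meas_Q1 (a : ℤ) (r n : ℕ) : MeasurableSet {ω : Cfg | Q1 a r n (opn ω)} := by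
  have e : {ω : Cfg | Q1 a r n (opn ω)} =
      ⋃ m : ℕ, {ω | (fun F : Finset Edg => Q1 a r n (↑F)) (FF (boxE m) ω)} := by
    ext ω
    rw [Set.mem_iUnion]
    constructor
    · intro hω
      obtain ⟨m, hm⟩ := Q1_box hω
      refine ⟨m, ?_⟩
      show Q1 a r n (↑(FF (boxE m) ω))
      rw [FF_coe]
      exact hm
    · rintro ⟨m, hm⟩
      have hm' : Q1 a r n (↑(FF (boxE m) ω)) := hm
      rw [FF_coe] at hm'
      exact hm'.mono Set.inter_subset_left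
  rw [e]
  exact MeasurableSet.iUnion fun m =>
    meas_event (boxE m) (fun F : Finset Edg => Q1 a r n (↑F))

theorem meas_mem (A : Set (ℤ × ℤ)) (z : ℤ × ℤ) : MeasurableSet {ω : Cfg | z ∈ clu A ω} := by
  have e : {ω : Cfg | z ∈ clu A ω} = ⋃ u ∈ A, ⋃ m : ℕ,
      {ω | (fun F : Finset Edg => Reach (↑F ∩ HH) u z) (FF (boxE m) ω)} := by
    ext ω
    rw [Set.mem_iUnion₂]
    constructor
    · rintro ⟨u, hu, hr⟩
      refine ⟨u, hu, ?_⟩
      rw [Set.mem_iUnion]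
      obtain ⟨m, hm⟩ := reach_boxH ((hreach ω u z).mp hr)
      refine ⟨m, ?_⟩
      show Reach (↑(FF (boxE m) ω) ∩ HH) u z
      rw [FF_coe]
      exact hm
    · rintro ⟨u, hu, h⟩
      rw [Set.mem_iUnion] at h
      obtain ⟨m, hm⟩ := h
      have hm' : Reach (↑(FF (boxE m) ω) ∩ HH) u z := hm
      rw [FF_coe] at hm'
      exact ⟨u, hu, (hreach ω u z).mpr
        (hm'.mono (Set.inter_subset_inter_left _ Set.inter_subset_left))⟩
  rw [e]
  exact MeasurableSet.biUnion (Set.to_countable _) fun u _ =>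
    MeasurableSet.iUnion fun m => meas_event (boxE m) (fun F : Finset Edg => Reach (↑F ∩ HH) u z)

/-- the event that the two clusters meet and the second one does not meet `A` -/
def EA (A B : Set (ℤ × ℤ)) : Set (Cfg × Cfg) :=
  {p | ¬ Disjoint (clu A p.1) (clu B p.2) ∧ Disjoint A (clu B p.2)}

theorem EA_meas (A B : Set (ℤ × ℤ)) : MeasurableSet (EA A B) := by
  have e : EA A B = (⋃ z : ℤ × ℤ, {ω | z ∈ clu A ω} ×ˢ {ω | z ∈ clu B ω}) ∩
      ⋂ z ∈ A, {p : Cfg × Cfg | p.2 ∈ {ω | z ∈ clu B ω}ᶜ} := by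
    ext p
    constructor
    · rintro ⟨h1, h2⟩
      obtain ⟨z, hz1, hz2⟩ := Set.not_disjoint_iff.mp h1
      refine ⟨Set.mem_iUnion.mpr ⟨z, hz1, hz2⟩, ?_⟩
      rw [Set.mem_iInter₂]
      intro z hz hz'
      exact Set.disjoint_left.mp h2 hz hz'
    · rintro ⟨h1, h2⟩
      obtain ⟨z, hz1, hz2⟩ := Set.mem_iUnion.mp h1
      refine ⟨Set.not_disjoint_iff.mpr ⟨z, hz1, hz2⟩, ?_⟩
      rw [Set.disjoint_left]
      intro z hz hz'
      exact (Set.mem_iInter₂.mp h2 z hz) hz'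
  rw [e]
  refine MeasurableSet.inter ?_ ?_
  · exact MeasurableSet.iUnion fun z => (meas_mem A z).prod (meas_mem B z)
  · exact MeasurableSet.biInter (Set.to_countable _) fun z _ =>
      measurable_snd (meas_mem B z).compl

end Q292.CDepH
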