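import Pool.Agent.Q292.CDepH.Base
import Pool.Agent.Q292.CDep.Upper

/-!
The half-plane: infinite volume bounds, and clusters of half-boxes.
-/

set_option autoImplicit false

namespace Q292.CDepH

open Finset H974 Pool.Agent.H160R2.CV MeasureTheory Q292.CDep
open Pool.Agent.H160R2.CV.Quad H362P H934E

theorem nv_bp (a b : ℤ) : nv (bp a - bp b) = (a - b).natAbs := by
  unfold nv bp
  simp

theorem P1_up : ∃ C : ℝ, 1 ≤ C ∧ (∀ (a : ℤ) (r n : ℕ), 1 ≤ n →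
    μ.real {ω | Q1 a r n (opn ω)} ≤ C * (((r : ℝ) + 1) / n) ^ be) ∧
    (∀ (a b : ℤ) (r k m : ℕ), r ≤ m → k ≤ m → 1 ≤ m → 2 * m + 1 ≤ nv (bp a - bp b) →
    μ.real {ω | Q2 a r b k (opn ω)} ≤
      (C * (((r : ℝ) + 1) / m) ^ be) * (C * (((k : ℝ) + 1) / m) ^ be)) := by
  obtain ⟨C, hC, hb⟩ := hb_up
  refine ⟨C, hC, fun a r n hn => ?_, fun a b r k m hr hk hm1 hm => ?_⟩
  · rcases Nat.lt_or_ge n r with hnr | hrn
    · refine measureReal_le_one.trans ?_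
      have hn0 : (0 : ℝ) < n := by exact_mod_cast hn
      have h1 : (1 : ℝ) ≤ (((r : ℝ) + 1) / n) ^ be := by
        apply Real.one_le_rpow _ (by norm_num)
        rw [one_le_div hn0]
        have : (n : ℝ) ≤ r := by exact_mod_cast hnr.le
        linarith
      nlinarith
    · refine InfAux.upper (Q1 a r n) (fun _ _ h hF => hF.mono h) (fun _ hF => Q1_box hF) _ ?_
      intro M
      refine le_trans (Pr_mono Quad.okP ?_) (hb a r n hn (boxE M))
      rintro F _ ⟨u, v, h0, h1, h2, h3⟩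
      exact CrH_of_reach hn hrn h0 h1 h2 h3
  · refine InfAux.upper (Q2 a r b k) (fun _ _ h hF => hF.mono h) (fun _ hF => Q2_box hF) _ ?_
    intro M
    have hd : Disjoint (bh a m \ bh a r) (bh b m \ bh b k) := by
      refine Finset.disjoint_of_subset_left Finset.sdiff_subset
        (Finset.disjoint_of_subset_right Finset.sdiff_subset ?_)
      have h1 : bh a m ⊆ bo (bp a) m := by
        unfold bh bo bp
        apply RE_subset <;> simp
      have h2 : bh b m ⊆ bo (bp b) m := by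
        unfold bh bo bp
        apply RE_subset <;> simp
      exact Finset.disjoint_of_subset_left h1 (Finset.disjoint_of_subset_right h2
        (bo_disj (by omega)))
    have i1 := indep2 (boxE M) _ _ hd (CrH_inc a r m) (CrH_inc b k m) CrH_loc CrH_loc
    refine le_trans (Pr_mono Quad.okP ?_) (i1.trans ?_)
    · rintro F _ ⟨u, v, h0, h1, h2, h3⟩
      have t1 := nv_tri (bp a) v (bp b)
      have t2 := w_nv_comm (bp a) v
      have t3 := nv_tri (bp a) u (bp b)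
      have t4 := w_nv_comm (bp a) u
      have hv := reach_up h0 h3
      constructor
      · exact CrH_of_reach hm1 hr h0 h1 (by omega) h3
      · exact CrH_of_reach hm1 hk hv h2 (by omega) h3.symm
    · exact mul_le_mul (hb a r m hm1 _) (hb b k m hm1 _) (Pr_nonneg Quad.okP _ _) (by positivity)

theorem P1_lo : ∃ c : ℝ, 0 < c ∧ (∀ (a : ℤ) (r n : ℕ), 1 ≤ n → r ≤ n → ∀ S : Finset Edg,
    bh a n ⊆ S → c * (((r : ℝ) + 1) / n) ^ be ≤ Pr P S (fun F => Q1 a r n (↑F))) ∧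
    (∀ (a : ℤ) (r n : ℕ), 1 ≤ n → r ≤ n →
    c * (((r : ℝ) + 1) / n) ^ be ≤ μ.real {ω | Q1 a r n (opn ω)}) := by
  obtain ⟨c, hc, h⟩ := hb_lo
  refine ⟨c, hc, h, fun a r n hn hrn => ?_⟩
  exact (h a r n hn hrn (boxE (a.natAbs + n)) bh_box).trans
    (InfAux.lower (Q1 a r n) (fun _ _ h hF => hF.mono h) (a.natAbs + n))

/-! ### half-boxes and their clusters -/

/-- the half-box around `(a, 0)` -/
def HB (a : ℤ) (r : ℕ) : Set (ℤ × ℤ) := {u | 0 ≤ u.2 ∧ nv (u - bp a) ≤ r}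

theorem hadj_iff (ω : Cfg) (u v : ℤ × ℤ) : (hgraph ω).Adj u v ↔ Adj (opn ω ∩ HH) u v := by
  show ((openGraph ω).Adj u v ∧ u ∈ UH ∧ v ∈ UH) ↔ _
  rw [openGraph_adj]
  constructor
  · rintro ⟨⟨e, he, hc⟩, hu, hv⟩
    refine ⟨e, ⟨he, ?_⟩, hc⟩
    obtain ⟨x, y, d⟩ := e
    have h1 : src (x, y, d) = u ∨ src (x, y, d) = v := by
      rcases hc with ⟨h, -⟩ | ⟨h, -⟩
      · exact Or.inl h
      · exact Or.inr h
    show 0 ≤ y
    rw [src_mk] at h1
    rcases h1 with h1 | h1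
    · rw [← h1] at hu; exact hu
    · rw [← h1] at hv; exact hv
  · rintro ⟨e, ⟨he, heH⟩, hc⟩
    refine ⟨⟨e, he, hc⟩, ?_⟩
    obtain ⟨x, y, d⟩ := e
    have hy : 0 ≤ y := heH
    have h1 : src (x, y, d) ∈ UH := hy
    have h2 : tgt (x, y, d) ∈ UH := by
      cases d
      · rw [tgt_false]; show 0 ≤ y + 1; omega
      · rw [tgt_true]; exact hy
    rcases hc with ⟨h3, h4⟩ | ⟨h3, h4⟩
    · rw [← h3, ← h4]; exact ⟨h1, h2⟩
    · rw [← h3, ← h4]; exact ⟨h2, h1⟩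

theorem hreach (ω : Cfg) (u v : ℤ × ℤ) :
    (hgraph ω).Reachable u v ↔ Reach (opn ω ∩ HH) u v := by
  rw [SimpleGraph.reachable_iff_reflTransGen]
  have : (hgraph ω).Adj = Adj (opn ω ∩ HH) := by
    funext u v
    exact propext (hadj_iff ω u v)
  rw [this]
  rfl

theorem mem_clu {a : ℤ} {z : ℤ × ℤ} {r : ℕ} {ω : Cfg} :
    z ∈ clu (HB a r) ω ↔ ∃ u, 0 ≤ u.2 ∧ nv (u - bp a) ≤ r ∧ Reach (opn ω ∩ HH) u z := by
  constructor
  · rintro ⟨u, ⟨hu0, hu⟩, h⟩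
    exact ⟨u, hu0, hu, (hreach ω u z).mp h⟩
  · rintro ⟨u, hu0, hu, h⟩
    exact ⟨u, ⟨hu0, hu⟩, (hreach ω u z).mpr h⟩

theorem clu_sub_full (A : Set (ℤ × ℤ)) (ω : Cfg) : clu A ω ⊆ Q292.CDep.clu A ω := by
  rintro v ⟨u, hu, h⟩
  refine ⟨u, hu, (open_reach ω u v).mpr ?_⟩
  exact ((hreach ω u v).mp h).mono Set.inter_subset_left

theorem HB_sub (a : ℤ) (r : ℕ) : HB a r ⊆ Bx (bp a) r := fun _ h => h.2

theorem clu_finite (a : ℤ) (r : ℕ) : ∀ᵐ ω ∂μ, (clu (HB a r) ω).Finite := by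
  filter_upwards [Q292.CDep.clu_finite (bp a) r] with ω hω
  refine hω.subset ?_
  intro v hv
  obtain ⟨u, hu, h⟩ := clu_sub_full _ _ hv
  exact ⟨u, HB_sub a r hu, h⟩

theorem HB_mono_clu {A B : Set (ℤ × ℤ)} (h : A ⊆ B) (ω : Cfg) : clu A ω ⊆ clu B ω := by
  rintro v ⟨u, hu, hr⟩
  exact ⟨u, h hu, hr⟩

end Q292.CDepH
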