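import Pool.Agent.Q292.CDepH.Main
import Pool.Agent.Q292.CDep.Pts

/-!
The half-plane: the clusters of two boundary vertices, both bounds at all distances.
-/

set_option autoImplicit false

namespace Q292.CDepH

open Finset H974 Pool.Agent.H160R2.CV MeasureTheory Q292.CDep
open Pool.Agent.H160R2.CV.Quad H362P H934E

/-- the event of the exact formula -/
def ED (x y : ℤ × ℤ) : Set (Cfg × Cfg) :=
  {p | ¬ Disjoint (clu {x} p.1) (clu {y} p.2) ∧ clu {x} p.1 ≠ clu {y} p.2}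

theorem iso_ge (y : ℤ × ℤ) : (1 / 16 : ℝ) ≤ μ.real {ω : Cfg | clu {y} ω = {y}} := by
  refine (Q292.CDep.iso_ge y).trans (measureReal_mono ?_)
  intro ω hω
  have hω' : Q292.CDep.clu {y} ω = {y} := hω
  apply Set.Subset.antisymm
  · exact (clu_sub_full _ _).trans hω'.le
  · exact sub_clu _ _

theorem near_lower : ∃ c : ℝ, 0 < c ∧ ∀ a b : ℤ, a ≠ b →
    c * ((a - b).natAbs : ℝ) ^ (-(2 / 3 : ℝ)) ≤ (μ.prod μ).real (ED (bp a) (bp b)) := by
  obtain ⟨c, hc, hlo1, hlo2⟩ := P1_lo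
  have hkp := kp_pos
  refine ⟨kp * c ^ 2 / 1024, by positivity, fun a b hab => ?_⟩
  set R := (a - b).natAbs with hR
  have hR1 : 1 ≤ R := by omega
  have hR0 : (0 : ℝ) < R := by exact_mod_cast hR1
  have h1 : kp * (c ^ 2 * ((1 / 64) * (R : ℝ) ^ (-(2 / 3 : ℝ)))) ≤
      μ.real {ω : Cfg | Q2 a 0 b 0 (opn ω)} := by
    refine le_trans ?_ (InfAux.lower (Q2 a 0 b 0) (fun _ _ h hF => hF.mono h)
      (a.natAbs + b.natAbs + 8 * R))
    refine le_trans ?_ (pr_Q2_ge hc hlo1 (R := R) (by rw [nv_bp]) hR1 (by omega) (by omega)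
      (Finset.Subset.refl _))
    apply mul_le_mul_of_nonneg_left _ hkp.le
    have e1 : (((0 : ℕ) : ℝ) + 1) / ((8 * R : ℕ) : ℝ) = (1 / 8) * (R : ℝ)⁻¹ := by
      push_cast
      field_simp
      ring
    rw [e1, Real.mul_rpow (by norm_num) (by positivity)]
    have h8 : (1 / 8 : ℝ) ≤ (1 / 8 : ℝ) ^ be := be_ge (by norm_num) (by norm_num)
    have e2 : ((R : ℝ)⁻¹) ^ be * ((R : ℝ)⁻¹) ^ be = (R : ℝ) ^ (-(2 / 3 : ℝ)) := by
      rw [← Real.rpow_add (by positivity), Real.inv_rpow hR0.le, ← Real.rpow_neg hR0.le]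
      congr 1
      norm_num
    have hp : 0 < (R : ℝ) ^ (-(2 / 3 : ℝ)) := Real.rpow_pos_of_pos hR0 _
    calc c ^ 2 * ((1 / 64) * (R : ℝ) ^ (-(2 / 3 : ℝ)))
        = c ^ 2 * ((1 / 8) * (1 / 8)) * (((R : ℝ)⁻¹) ^ be * ((R : ℝ)⁻¹) ^ be) := by
          rw [e2]; ring
      _ ≤ c ^ 2 * ((1 / 8) ^ be * (1 / 8) ^ be) * (((R : ℝ)⁻¹) ^ be * ((R : ℝ)⁻¹) ^ be) := by
          rw [e2]
          apply mul_le_mul_of_nonneg_right _ hp.le
          apply mul_le_mul_of_nonneg_left _ (by positivity)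
          exact mul_le_mul h8 h8 (by norm_num) (by positivity)
      _ = _ := by ring
  have hsub : {ω : Cfg | Q2 a 0 b 0 (opn ω)} ×ˢ {ω : Cfg | clu {bp b} ω = {bp b}} ⊆
      ED (bp a) (bp b) := by
    rintro ⟨ω, ω'⟩ ⟨⟨u, v, hu0, hu, hv, huv⟩, h3⟩
    have h3' : clu {bp b} ω' = {bp b} := h3
    have hu' : u = bp a := sub_eq_zero.mp (nv_eq_zero (Nat.le_zero.mp hu))
    have hv' : v = bp b := sub_eq_zero.mp (nv_eq_zero (Nat.le_zero.mp hv))
    rw [hu', hv'] at huv
    have h5 : bp b ∈ clu {bp a} ω := ⟨bp a, rfl, (hreach ω _ _).mpr huv⟩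
    show ¬ Disjoint (clu {bp a} ω) (clu {bp b} ω') ∧ clu {bp a} ω ≠ clu {bp b} ω'
    rw [h3']
    refine ⟨Set.not_disjoint_iff.mpr ⟨bp b, h5, rfl⟩, fun hcon => ?_⟩
    have h6 : bp a ∈ clu {bp a} ω := sub_clu _ _ rfl
    rw [hcon, Set.mem_singleton_iff] at h6
    apply hab
    exact congrArg Prod.fst h6
  refine le_trans ?_ (measureReal_mono hsub)
  rw [measureReal_prod_prod]
  calc kp * c ^ 2 / 1024 * (R : ℝ) ^ (-(2 / 3 : ℝ))
      = kp * (c ^ 2 * ((1 / 64) * (R : ℝ) ^ (-(2 / 3 : ℝ)))) * (1 / 16) := by ring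
    _ ≤ _ := mul_le_mul h1 (iso_ge _) (by norm_num) measureReal_nonneg

theorem pow_two_pt {R : ℕ} (hR : 1 ≤ R) :
    ((((0 : ℕ) : ℝ) + 1) * (((0 : ℕ) : ℝ) + 1) / (R : ℝ) ^ 2) ^ be =
      (R : ℝ) ^ (-(2 / 3 : ℝ)) := by
  have hR0 : (0 : ℝ) < R := by exact_mod_cast hR
  have e1 : (((0 : ℕ) : ℝ) + 1) * (((0 : ℕ) : ℝ) + 1) / (R : ℝ) ^ 2 = (R : ℝ) ^ (-2 : ℝ) := by
    rw [Real.rpow_neg hR0.le, Real.rpow_two]
    simp
  rw [e1, ← Real.rpow_mul hR0.le]
  congr 1
  norm_num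

/-- **Two boundary vertices at any distance.** -/
theorem two_vertices : ∃ c C : ℝ, 0 < c ∧ 0 < C ∧ ∀ a b : ℤ, a ≠ b →
    c * ((a - b).natAbs : ℝ) ^ (-(2 / 3 : ℝ)) * Real.log (((a - b).natAbs : ℝ) + 1) ≤
      (μ.prod μ).real (ED (bp a) (bp b)) ∧
    (μ.prod μ).real (ED (bp a) (bp b)) ≤
      C * ((a - b).natAbs : ℝ) ^ (-(2 / 3 : ℝ)) * Real.log (((a - b).natAbs : ℝ) + 1) := by
  obtain ⟨c, C, hc, hC, hm⟩ := main
  obtain ⟨c', hc', hn⟩ := near_lower
  refine ⟨min c (c' / 4), 2 * C + 40, by positivity, by positivity, fun x y hxy => ?_⟩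
  set R := (x - y).natAbs with hR
  have hR1 : 1 ≤ R := by omega
  have hR1' : (1 : ℝ) ≤ R := by exact_mod_cast hR1
  have hR0 : (0 : ℝ) < R := by linarith
  set U : ℝ := (R : ℝ) ^ (-(2 / 3 : ℝ)) with hU
  have hU0 : 0 < U := Real.rpow_pos_of_pos hR0 _
  have hl0 : 0 < Real.log ((R : ℝ) + 1) := Real.log_pos (by linarith)
  have hmin : min c (c' / 4) ≤ c := min_le_left _ _
  have hmin' : min c (c' / 4) ≤ c' / 4 := min_le_right _ _
  rcases Nat.lt_or_ge R 20 with hlt | hge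
  · have hRle : (R : ℝ) ≤ 19 := by exact_mod_cast (by omega : R ≤ 19)
    have hl : Real.log ((R : ℝ) + 1) ≤ 4 := by
      have h1 : Real.log ((R : ℝ) + 1) ≤ Real.log (2 ^ 5) :=
        Real.log_le_log (by linarith) (by norm_num; linarith)
      rw [Real.log_pow] at h1
      have := Real.log_two_lt_d9
      push_cast at h1
      linarith
    constructor
    · have h1 := hn x y hxy
      rw [← hR, ← hU] at h1
      refine le_trans ?_ h1
      have h2 : min c (c' / 4) * U ≤ c' / 4 * U := mul_le_mul_of_nonneg_right hmin' hU0.le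
      have h3 : 0 < c' / 4 * U := by positivity
      calc min c (c' / 4) * U * Real.log ((R : ℝ) + 1)
          ≤ c' / 4 * U * Real.log ((R : ℝ) + 1) := mul_le_mul_of_nonneg_right h2 hl0.le
        _ ≤ c' / 4 * U * 4 := mul_le_mul_of_nonneg_left hl h3.le
        _ = c' * U := by ring
    · have h1 : (μ.prod μ).real (ED (bp x) (bp y)) ≤ 1 := measureReal_le_one
      refine h1.trans ?_
      have h2 : (1 / 20 : ℝ) ≤ U := by
        rw [hU, Real.rpow_neg hR0.le, one_div]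
        apply inv_anti₀ (by positivity)
        calc (R : ℝ) ^ (2 / 3 : ℝ) ≤ (R : ℝ) ^ (1 : ℝ) :=
              Real.rpow_le_rpow_of_exponent_le hR1' (by norm_num)
          _ = R := Real.rpow_one _
          _ ≤ 20 := by linarith
      have h3 : (1 / 2 : ℝ) ≤ Real.log ((R : ℝ) + 1) := by
        have h4 : Real.log 2 ≤ Real.log ((R : ℝ) + 1) :=
          Real.log_le_log (by norm_num) (by linarith)
        have := Real.log_two_gt_d9
        linarith
      have h5 : (1 / 20 : ℝ) * (1 / 2) ≤ U * Real.log ((R : ℝ) + 1) :=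
        mul_le_mul h2 h3 (by norm_num) hU0.le
      nlinarith
  · have hRge : (20 : ℝ) ≤ R := by exact_mod_cast hge
    have hRn : nv (bp x - bp y) = R := nv_bp x y
    obtain ⟨m1, m2⟩ := hm x y 0 0 R hRn (by omega) (by omega)
    rw [pow_two_pt hR1, ← hU] at m1 m2
    simp only [HB_zero] at m1 m2
    have elog : Real.log ((R : ℝ) ^ 2 / ((((0 : ℕ) : ℝ) + 1) * (((0 : ℕ) : ℝ) + 1))) =
        2 * Real.log R := by
      simp only [Nat.cast_zero, zero_add, mul_one, div_one]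
      rw [Real.log_pow]
      norm_num
    rw [elog] at m1 m2
    have hl1 : Real.log ((R : ℝ) + 1) ≤ 2 * Real.log R := by
      rw [show (2 : ℝ) * Real.log R = Real.log ((R : ℝ) ^ 2) by rw [Real.log_pow]; norm_num]
      exact Real.log_le_log (by linarith) (by nlinarith)
    have hl2 : Real.log R ≤ Real.log ((R : ℝ) + 1) :=
      Real.log_le_log (by linarith) (by linarith)
    constructor
    · obtain ⟨S, -, -, hS⟩ := m2
      have h1 := exact_le (single_finite x) (single_finite y) S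
      have h2 : c * U * (2 * Real.log R) ≤ (μ.prod μ).real (ED (bp x) (bp y)) := hS.trans h1
      refine le_trans ?_ h2
      calc min c (c' / 4) * U * Real.log ((R : ℝ) + 1)
          ≤ c * U * Real.log ((R : ℝ) + 1) := by
            apply mul_le_mul_of_nonneg_right _ hl0.le
            exact mul_le_mul_of_nonneg_right hmin hU0.le
        _ ≤ c * U * (2 * Real.log R) := mul_le_mul_of_nonneg_left hl1 (by positivity)
    · have h1 := m1 {q | ¬ Disjoint q.1.1 q.2.1 ∧ q.1.1 ≠ q.2.1}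
      have h2 := exact_eq (x, 0) (y, 0)
      have h3 : (μ.prod μ).real (ED (bp x) (bp y)) ≤ C * U * (2 * Real.log R) := by
        refine le_trans (le_of_eq ?_) h1
        exact h2.symm
      refine h3.trans ?_
      have h4 : 0 < C * U := by positivity
      have h5 : 0 < U * Real.log ((R : ℝ) + 1) := by positivity
      calc C * U * (2 * Real.log R) ≤ C * U * (2 * Real.log ((R : ℝ) + 1)) := by
            apply mul_le_mul_of_nonneg_left _ h4.le
            linarith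
        _ ≤ _ := by nlinarith

end Q292.CDepH
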